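import Pool.Agent.W509.RT.Gen

/-!
# Reiner–Tudose: the grading of the ring
-/

set_option autoImplicit false

namespace Pool.Agent.W509.RT

open Polynomial Pool.Agent.W181.RT

section

variable (ℓ k : ℕ)

theorem RD_eq (D : ℕ) : RD ℓ k D =
    Module.End.eigenspace (sig ℓ k).toLinearMap ((2 : ℚ) ^ D) := by
  ext x
  rw [mem_RD, Module.End.mem_eigenspace_iff]
  rfl

theorem RD_indep : iSupIndep (RD ℓ k) := by
  have h := (Module.End.eigenspaces_iSupIndep (sig ℓ k).toLinearMap).comp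
    (f := fun D : ℕ => (2 : ℚ) ^ D) (pow_right_injective₀ (by norm_num) (by norm_num))
  have e : RD ℓ k = (Module.End.eigenspace (sig ℓ k).toLinearMap) ∘ fun D : ℕ => (2 : ℚ) ^ D := by
    funext D
    exact RD_eq ℓ k D
  rw [e]
  exact h

theorem indep_eq (s : Finset ℕ) (y : ℕ → RR ℓ k) (hy : ∀ D, y D ∈ RD ℓ k D) (d : ℕ)
    (x : RR ℓ k) (hx : x ∈ RD ℓ k d) (h : x = ∑ D ∈ s, y D) :
    x = if d ∈ s then y d else 0 := by
  have h1 : x - (if d ∈ s then y d else 0) = ∑ D ∈ s.erase d, y D := by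
    rw [h]
    split_ifs with hd
    · rw [← Finset.add_sum_erase _ _ hd, add_sub_cancel_left]
    · rw [Finset.erase_eq_of_notMem hd, sub_zero]
  have h2 : x - (if d ∈ s then y d else 0) ∈ RD ℓ k d := by
    refine (RD ℓ k d).sub_mem hx ?_
    split_ifs
    · exact hy d
    · exact (RD ℓ k d).zero_mem
  have h3 : x - (if d ∈ s then y d else 0) ∈ ⨆ j, ⨆ (_ : j ≠ d), RD ℓ k j := by
    rw [h1]
    refine Submodule.sum_mem _ fun D hD => ?_
    exact Submodule.mem_iSup_of_mem D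
      (Submodule.mem_iSup_of_mem (Finset.ne_of_mem_erase hD) (hy D))
  have h4 := Submodule.disjoint_def.1 (RD_indep ℓ k d) _ h2 h3
  exact sub_eq_zero.1 h4

/-- the auxiliary graded pieces -/
def HH (m D : ℕ) : Submodule ℚ (RR ℓ k) where
  carrier := {x | x ∈ RD ℓ k D ∧
    (D ≤ m → x ∈ Algebra.adjoin ℚ {x : RR ℓ k | ∃ a : ℕ, a < m ∧ x = qq ℓ k a})}
  add_mem' := fun hx hy => ⟨(RD ℓ k D).add_mem hx.1 hy.1,
    fun h => Subalgebra.add_mem _ (hx.2 h) (hy.2 h)⟩
  zero_mem' := ⟨(RD ℓ k D).zero_mem, fun _ => Subalgebra.zero_mem _⟩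
  smul_mem' := fun c _ hx => ⟨(RD ℓ k D).smul_mem c hx.1,
    fun h => Subalgebra.smul_mem _ (hx.2 h) c⟩

theorem HH_mul (m D E : ℕ) (x y : RR ℓ k) (hx : x ∈ HH ℓ k m D) (hy : y ∈ HH ℓ k m E) :
    x * y ∈ HH ℓ k m (D + E) :=
  ⟨RD_mul ℓ k D E x y hx.1 hy.1,
    fun h => Subalgebra.mul_mem _ (hx.2 (by omega)) (hy.2 (by omega))⟩

theorem HH_sup (m : ℕ) (x : RR ℓ k) : x ∈ ⨆ D, HH ℓ k m D := by
  have hx : x ∈ Algebra.adjoin ℚ (Set.range (qq ℓ k)) := by
    rw [t_GEN ℓ k]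
    trivial
  induction hx using Algebra.adjoin_induction with
  | mem x hx =>
    obtain ⟨a, rfl⟩ := hx
    refine Submodule.mem_iSup_of_mem (a + 1) ⟨qq_mem ℓ k a, fun h => ?_⟩
    exact Algebra.subset_adjoin ⟨a, by omega, rfl⟩
  | algebraMap r =>
    refine Submodule.mem_iSup_of_mem 0 ⟨?_, fun _ => Subalgebra.algebraMap_mem _ r⟩
    rw [mem_RD, AlgHom.commutes, pow_zero, one_smul]
  | add x y _ _ hx hy => exact Submodule.add_mem _ hx hy
  | mul x y _ _ hx hy =>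
    refine Submodule.iSup_induction (HH ℓ k m) (motive := fun x => x * y ∈ ⨆ D, HH ℓ k m D) hx
      ?_ ?_ ?_
    · intro D a ha
      refine Submodule.iSup_induction (HH ℓ k m) (motive := fun y => a * y ∈ ⨆ D, HH ℓ k m D) hy
        ?_ ?_ ?_
      · intro E b hb
        exact Submodule.mem_iSup_of_mem (D + E) (HH_mul ℓ k m D E a b ha hb)
      · rw [mul_zero]
        exact Submodule.zero_mem _
      · intro b c hb hc
        rw [mul_add]
        exact Submodule.add_mem _ hb hc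
    · rw [zero_mul]
      exact Submodule.zero_mem _
    · intro b c hb hc
      rw [add_mul]
      exact Submodule.add_mem _ hb hc

end

theorem t_DEC : S_DEC := by
  intro ℓ k x
  have h := HH_sup ℓ k 0 x
  refine (iSup_mono (f := HH ℓ k 0) (g := RD ℓ k) fun D y hy => hy.1) h

theorem t_TR2 : S_TR2 := by
  intro ℓ k m e he x hx
  obtain ⟨f, hf, hs⟩ := (Submodule.mem_iSup_iff_exists_finsupp _ _).1 (HH_sup ℓ k m x)
  have h1 := indep_eq ℓ k f.support f (fun D => (hf D).1) e x hx hs.symm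
  rw [h1]
  split_ifs
  · exact (hf e).2 he
  · exact Subalgebra.zero_mem _

theorem sigA_monomial (ℓ k : ℕ) (s : (Fin ℓ ⊕ Fin k) →₀ ℕ) (a : ℚ) :
    sigA ℓ k (MvPolynomial.monomial s a) =
      (2 : ℚ) ^ (Finsupp.weight (ww ℓ k) s) • MvPolynomial.monomial s a := by
  rw [sigA, MvPolynomial.aeval_monomial]
  have h1 : (s.prod fun i e => (MvPolynomial.C ((2 : ℚ) ^ (ww ℓ k i)) * MvPolynomial.X i :
      AA ℓ k) ^ e) = MvPolynomial.C ((2 : ℚ) ^ (Finsupp.weight (ww ℓ k) s)) *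
        (s.prod fun i e => (MvPolynomial.X i : AA ℓ k) ^ e) := by
    have h2 : (MvPolynomial.C ((2 : ℚ) ^ (Finsupp.weight (ww ℓ k) s)) : AA ℓ k) =
        s.prod fun i e => (MvPolynomial.C ((2 : ℚ) ^ (ww ℓ k i)) : AA ℓ k) ^ e := by
      rw [Finsupp.weight_apply, Finsupp.sum, ← Finset.prod_pow_eq_pow_sum, map_prod]
      refine Finset.prod_congr rfl fun i _ => ?_
      simp only [smul_eq_mul]
      rw [← map_pow, ← pow_mul, mul_comm]
    rw [h2, ← Finsupp.prod_mul]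
    refine Finset.prod_congr rfl fun i _ => ?_
    simp only
    rw [mul_pow]
  rw [h1, MvPolynomial.monomial_eq, MvPolynomial.smul_eq_C_mul]
  simp only [MvPolynomial.algebraMap_eq]
  ring

theorem sigA_homog (ℓ k d : ℕ) (f : AA ℓ k)
    (hf : f ∈ MvPolynomial.weightedHomogeneousSubmodule ℚ (ww ℓ k) d) :
    sigA ℓ k f = (2 : ℚ) ^ d • f := by
  rw [MvPolynomial.mem_weightedHomogeneousSubmodule] at hf
  conv_lhs => rw [f.as_sum]
  conv_rhs => rw [f.as_sum]
  rw [map_sum, Finset.smul_sum]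
  refine Finset.sum_congr rfl fun s hs => ?_
  rw [sigA_monomial, hf (MvPolynomial.mem_support_iff.1 hs)]

theorem mk_homog (ℓ k d : ℕ) (f : AA ℓ k)
    (hf : f ∈ MvPolynomial.weightedHomogeneousSubmodule ℚ (ww ℓ k) d) :
    Ideal.Quotient.mk (II ℓ k) f ∈ RD ℓ k d := by
  rw [mem_RD, sig_mk, sigA_homog ℓ k d f hf]
  rfl

theorem t_TR1 : S_TR1 := by
  intro ℓ k d
  apply le_antisymm
  · rintro _ ⟨f, hf, rfl⟩
    exact mk_homog ℓ k d f hf
  · intro x hx
    obtain ⟨f, rfl⟩ := Ideal.Quotient.mk_surjective x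
    have hfin := MvPolynomial.weightedHomogeneousComponent_finsupp (w := ww ℓ k) f
    have h1 := MvPolynomial.sum_weightedHomogeneousComponent (ww ℓ k) f
    rw [finsum_eq_sum _ hfin] at h1
    have h2 : Ideal.Quotient.mk (II ℓ k) f = ∑ D ∈ hfin.toFinset,
        Ideal.Quotient.mk (II ℓ k) (MvPolynomial.weightedHomogeneousComponent (ww ℓ k) D f) := by
      conv_lhs => rw [← h1]
      rw [map_sum]
    have h3 : ∀ D, MvPolynomial.weightedHomogeneousComponent (ww ℓ k) D f ∈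
        MvPolynomial.weightedHomogeneousSubmodule ℚ (ww ℓ k) D := fun D =>
      MvPolynomial.weightedHomogeneousComponent_isWeightedHomogeneous D f
    have h4 := indep_eq ℓ k hfin.toFinset _ (fun D => mk_homog ℓ k D _ (h3 D)) d _ hx h2
    rw [h4]
    split_ifs
    · exact ⟨_, h3 d, rfl⟩
    · exact Submodule.zero_mem _

end Pool.Agent.W509.RT
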