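import Pool.Agent.W181.RT.Props

/-!
# Reiner–Tudose: generation by power sums
-/

set_option autoImplicit false

namespace Pool.Agent.W509.RT

open Polynomial Pool.Agent.W181.RT

theorem scal {R : Type} [CommRing R] [Algebra ℚ R] (m : ℕ) (x : R) :
    x = (((m : ℚ) + 1)⁻¹) • (x * ((m : R) + 1)) := by
  have h1 : ((m : R) + 1) = algebraMap ℚ R ((m : ℚ) + 1) := by simp
  rw [h1, mul_comm, ← Algebra.smul_def, smul_smul, inv_mul_cancel₀, one_smul]
  positivity

theorem T_mem (ℓ k : ℕ) (A : Subalgebra ℚ (RR ℓ k)) (N : ℕ) (h : ∀ a < N, qq ℓ k a ∈ A) :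
    ∀ n ≤ N, (TT ℓ k).coeff n ∈ A := by
  intro n
  induction n using Nat.strong_induction_on with
  | _ n ih =>
    intro hn
    rcases n with _ | m
    · rw [TT_coeff_zero]
      exact A.one_mem
    · have e := congrArg (fun p => Polynomial.coeff p m) (TP ℓ k)
      simp only [Polynomial.coeff_mul, Polynomial.coeff_derivative] at e
      rw [scal m ((TT ℓ k).coeff (m + 1)), ← e]
      refine A.smul_mem (A.sum_mem fun x hx => ?_) _
      have hx' := Finset.HasAntidiagonal.mem_antidiagonal.1 hx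
      exact A.mul_mem (ih x.1 (by omega) (by omega)) (h x.2 (by omega))

theorem S_mem (ℓ k : ℕ) (A : Subalgebra ℚ (RR ℓ k)) (N : ℕ) (h : ∀ a < N, qq ℓ k a ∈ A) :
    ∀ n ≤ N, (SS ℓ k).coeff n ∈ A := by
  intro n
  induction n using Nat.strong_induction_on with
  | _ n ih =>
    intro hn
    rcases n with _ | m
    · rw [SS_coeff_zero]
      exact A.one_mem
    · have e := congrArg (fun p => Polynomial.coeff p m) (SP ℓ k)
      simp only [Polynomial.coeff_mul, Polynomial.coeff_neg, Polynomial.coeff_derivative] at e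
      have e2 : (SS ℓ k).coeff (m + 1) * ((m : RR ℓ k) + 1) =
          - ∑ x ∈ Finset.HasAntidiagonal.antidiagonal m, (SS ℓ k).coeff x.1 * (PP ℓ k).coeff x.2 := by
        rw [e, neg_neg]
      rw [scal m ((SS ℓ k).coeff (m + 1)), e2]
      refine A.smul_mem (A.neg_mem (A.sum_mem fun x hx => ?_)) _
      have hx' := Finset.HasAntidiagonal.mem_antidiagonal.1 hx
      exact A.mul_mem (ih x.1 (by omega) (by omega)) (h x.2 (by omega))

theorem Sg_coeff_succ (ℓ k : ℕ) (i : Fin ℓ) :
    (Sg ℓ k).coeff (i.val + 1) = (-1 : AA ℓ k) ^ (i.val + 1) * MvPolynomial.X (Sum.inl i) := by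
  rw [Sg, Polynomial.coeff_add, Polynomial.finsetSum_coeff, Polynomial.coeff_one,
    if_neg (by omega), zero_add, Finset.sum_eq_single i]
  · rw [Polynomial.coeff_C_mul, Polynomial.coeff_X_pow, if_pos rfl, mul_one]
  · intro j _ hj
    rw [Polynomial.coeff_C_mul, Polynomial.coeff_X_pow, if_neg, mul_zero]
    intro h
    exact hj (Fin.ext (by omega))
  · intro h
    exact absurd (Finset.mem_univ i) h

theorem Tg_coeff_succ (ℓ k : ℕ) (i : Fin k) :
    (Tg ℓ k).coeff (i.val + 1) = MvPolynomial.X (Sum.inr i) := by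
  rw [Tg, Polynomial.coeff_add, Polynomial.finsetSum_coeff, Polynomial.coeff_one,
    if_neg (by omega), zero_add, Finset.sum_eq_single i]
  · rw [Polynomial.coeff_C_mul, Polynomial.coeff_X_pow, if_pos rfl, mul_one]
  · intro j _ hj
    rw [Polynomial.coeff_C_mul, Polynomial.coeff_X_pow, if_neg, mul_zero]
    intro h
    exact hj (Fin.ext (by omega))
  · intro h
    exact absurd (Finset.mem_univ i) h

theorem mem_of_sign {R : Type} [CommRing R] [Algebra ℚ R] (A : Subalgebra ℚ R) (n : ℕ) (y : R)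
    (h : (-1 : R) ^ n * y ∈ A) : y ∈ A := by
  have h2 : y = (-1 : R) ^ n * ((-1 : R) ^ n * y) := by
    rw [← mul_assoc, ← mul_pow, neg_mul_neg, one_mul, one_pow, one_mul]
  rw [h2]
  exact A.mul_mem (A.pow_mem (A.neg_mem A.one_mem) _) h

/-- a subalgebra containing the coefficients of `S` and `T` is everything -/
theorem top_of (ℓ k : ℕ) (A : Subalgebra ℚ (RR ℓ k)) (hS : ∀ n, (SS ℓ k).coeff n ∈ A)
    (hT : ∀ n, (TT ℓ k).coeff n ∈ A) : A = ⊤ := by
  rw [eq_top_iff]
  intro x _
  obtain ⟨f, rfl⟩ := Ideal.Quotient.mk_surjective x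
  induction f using MvPolynomial.induction_on with
  | C a => exact A.algebraMap_mem a
  | add p q hp hq =>
    rw [map_add]
    exact A.add_mem (hp trivial) (hq trivial)
  | mul_X p s hp =>
    rw [map_mul]
    refine A.mul_mem (hp trivial) ?_
    rcases s with i | j
    · have h := hS (i.val + 1)
      rw [SS, Polynomial.coeff_map, Sg_coeff_succ, map_mul, map_pow, map_neg, map_one] at h
      exact mem_of_sign A _ _ h
    · have h := hT (j.val + 1)
      rwa [TT, Polynomial.coeff_map, Tg_coeff_succ] at h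

theorem t_GEN : S_GEN := by
  intro ℓ k
  have h : ∀ a, qq ℓ k a ∈ Algebra.adjoin ℚ (Set.range (qq ℓ k)) := fun a =>
    Algebra.subset_adjoin ⟨a, rfl⟩
  exact top_of ℓ k _ (fun n => S_mem ℓ k _ n (fun a _ => h a) n le_rfl)
    (fun n => T_mem ℓ k _ n (fun a _ => h a) n le_rfl)

theorem other (R : Type) [CommRing R] [Algebra ℚ R] (A : Subalgebra ℚ R) (S T : Polynomial R)
    (hST : S * T = 1) (hT0 : T.coeff 0 = 1) (hT : ∀ n, T.coeff n ∈ A) : ∀ n, S.coeff n ∈ A := by
  intro n
  induction n using Nat.strong_induction_on with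
  | _ n ih =>
    have e := congrArg (fun p => Polynomial.coeff p n) hST
    simp only [Polynomial.coeff_mul] at e
    have hmem : (n, 0) ∈ Finset.HasAntidiagonal.antidiagonal n := by simp
    rw [← Finset.add_sum_erase _ _ hmem] at e
    simp only [hT0, mul_one] at e
    rw [← eq_sub_iff_add_eq] at e
    rw [e]
    refine A.sub_mem ?_ (A.sum_mem fun x hx => ?_)
    · rw [Polynomial.coeff_one]
      split_ifs
      · exact A.one_mem
      · exact A.zero_mem
    · have h1 := Finset.mem_erase.1 hx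
      have h2 := Finset.HasAntidiagonal.mem_antidiagonal.1 h1.2
      refine A.mul_mem (ih x.1 ?_) (hT x.2)
      rcases Nat.eq_zero_or_pos x.2 with h3 | h3
      · exact absurd (Prod.ext (by simpa [h3] using h2) h3) h1.1
      · omega

theorem t_GEND : S_GEND := by
  intro ℓ k
  set A := Algebra.adjoin ℚ {x : RR ℓ k | ∃ a : ℕ, a < min k ℓ ∧ x = qq ℓ k a} with hA
  have h : ∀ a < min k ℓ, qq ℓ k a ∈ A := fun a ha => Algebra.subset_adjoin ⟨a, ha, rfl⟩
  rcases le_total k ℓ with hkl | hkl
  · have hT : ∀ n, (TT ℓ k).coeff n ∈ A := by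
      intro n
      rcases Nat.lt_or_ge k n with hn | hn
      · rw [TT_coeff_big ℓ k n hn]
        exact A.zero_mem
      · exact T_mem ℓ k A k (fun a ha => h a (by omega)) n hn
    exact top_of ℓ k A (other _ A _ _ (ST_one ℓ k) (TT_coeff_zero ℓ k) hT) hT
  · have hS : ∀ n, (SS ℓ k).coeff n ∈ A := by
      intro n
      rcases Nat.lt_or_ge ℓ n with hn | hn
      · rw [SS_coeff_big ℓ k n hn]
        exact A.zero_mem
      · exact S_mem ℓ k A ℓ (fun a ha => h a (by omega)) n hn
    exact top_of ℓ k A hS (other _ A _ _ (by rw [mul_comm]; exact ST_one ℓ k)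
      (SS_coeff_zero ℓ k) hS)

end Pool.Agent.W509.RT
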